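import Mathlib
import Pool.Agent.H9.Dyn.Final

/-!
# For every quadratic `f` over `ℚ`, `δ(S_{Φ_{n,f}}) < 1` for all but finitely many `n`

Explicitly, if `f` is linearly conjugate to `x^2 + c` and `p`, `r` are distinct primes not dividing
the denominator of `c`, then the density exists and is less than one for every
`n > p(p-1)r(r-1)`.
-/

open Polynomial Pool.Agent.H9.Dyn

namespace Pool.Agent.Results.MP_34cc05_nt.AllButFinitelyMany

theorem result :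
    (∀ (f : ℚ[X]) (c : ℚ), LinConj f c →
      ∀ p r : ℕ, p.Prime → r.Prime → p ≠ r → ¬ p ∣ c.den → ¬ r ∣ c.den →
      ∀ n : ℕ, p * (p - 1) * (r * (r - 1)) < n →
      ∀ Φ : ℚ[X], IsDynatomic f n Φ →
        ∃ δ : ℝ, δ < 1 ∧ HasDirichletDensity (rootPrimes Φ) δ) ∧
    ∀ f : ℚ[X], f.natDegree = 2 →
      ∃ N : ℕ, ∀ n : ℕ, N < n → ∀ Φ : ℚ[X], IsDynatomic f n Φ →
        ∃ δ : ℝ, δ < 1 ∧ HasDirichletDensity (rootPrimes Φ) δ := by
  have key : ∀ (f : ℚ[X]) (c : ℚ), LinConj f c →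
      ∀ p r : ℕ, p.Prime → r.Prime → p ≠ r → ¬ p ∣ c.den → ¬ r ∣ c.den →
      ∀ n : ℕ, p * (p - 1) * (r * (r - 1)) < n →
      ∀ Φ : ℚ[X], IsDynatomic f n Φ →
        ∃ δ : ℝ, δ < 1 ∧ HasDirichletDensity (rootPrimes Φ) δ := by
    intro f c hf p r hp hr hpr hpc hrc n hn Φ hΦ
    have hn0 : 0 < n := by omega
    rcases good_bound_two p r hp hr hpr c hpc hrc n hn with ⟨_, τ, hτ⟩ | ⟨_, τ, hτ⟩
    · exact exists_density_of_move _ f c hf n hn0 Φ hΦ τ hτ
    · exact exists_density_of_move _ f c hf n hn0 Φ hΦ τ hτ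
  refine ⟨key, fun f hf => ?_⟩
  obtain ⟨c, hc⟩ := exists_linConj f hf
  obtain ⟨p, hpc, hp⟩ := Nat.exists_infinite_primes (c.den + 1)
  obtain ⟨r, hrp, hr⟩ := Nat.exists_infinite_primes (p + 1)
  have h1 : ¬ p ∣ c.den := fun h => by
    have := Nat.le_of_dvd c.den_pos h
    omega
  have h2 : ¬ r ∣ c.den := fun h => by
    have := Nat.le_of_dvd c.den_pos h
    omega
  exact ⟨p * (p - 1) * (r * (r - 1)), fun n hn Φ hΦ =>
    key f c hc p r hp hr (by omega) h1 h2 n hn Φ hΦ⟩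

end Pool.Agent.Results.MP_34cc05_nt.AllButFinitelyMany
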