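import Mathlib
import Pool.Agent.H9.Dyn.Final

/-!
# For every `n > 3`, `δ(S_{Φ_{n,f}}) < 1` unless `f` is conjugate to `x^2 - r/s^2` with strong
congruence conditions on `r`, `s`, `n`
-/

open Polynomial Pool.Agent.H9.Dyn

namespace Pool.Agent.Results.MP_34cc05_nt.LocalExceptions

theorem result (f : ℚ[X]) (hf : f.natDegree = 2) (n : ℕ) (hn : 3 < n) (Φ : ℚ[X])
    (hΦ : IsDynatomic f n Φ) :
    (∃ δ : ℝ, δ < 1 ∧ HasDirichletDensity (rootPrimes Φ) δ) ∨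
      ∃ r s : ℕ, 0 < s ∧ LinConj f (-((r : ℚ) / (s : ℚ) ^ 2)) ∧ Exceptional r s n := by
  obtain ⟨c, hc⟩ := exists_linConj f hf
  have hn0 : 0 < n := by omega
  by_cases h1 : Move ℂ c n
  · obtain ⟨τ, hτ⟩ := h1
    exact Or.inl (exists_density_of_move _ f c hc n hn0 Φ hΦ τ hτ)
  by_cases h2 : ∃ (p : ℕ) (_ : Fact p.Prime), Move (PadicAlgCl p) c n
  · obtain ⟨p, fp, τ, hτ⟩ := h2
    exact Or.inl (exists_density_of_move _ f c hc n hn0 Φ hΦ τ hτ)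
  push Not at h2
  obtain ⟨r, s, hs, hcrs, hex⟩ := exceptional_of_not_move c n hn h1 h2
  exact Or.inr ⟨r, s, hs, hcrs ▸ hc, hex⟩

end Pool.Agent.Results.MP_34cc05_nt.LocalExceptions
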